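import Pool.Agent.Helper83_DPB.Stmts

/-!
Squad DPB (MP_e2cf1f_an): module HT, the heights.
-/

open Filter Topology Set

namespace Pool.Agent.Helper83_DPB.H85

theorem nxt_gt (M : ℕ) (s : Sym) : M + 1 ≤ nxt M s := by
  cases s with
  | l2 b k => exact le_max_left _ _
  | c0 n k => exact le_max_left _ _
  | mark k => exact le_max_left _ _

theorem mem_cyl_snoc (σ : List Sym) (s : Sym) (x : Pt) :
    x ∈ cyl (σ ++ [s]) ↔ x ∈ cyl σ ∧ x σ.length = s := by
  constructor
  · intro h
    refine ⟨fun i hi => ?_, ?_⟩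
    · have h1 := h i (by simp; omega)
      rw [h1, List.getElem_append_left hi]
    · have h1 := h σ.length (by simp)
      rw [h1]
      simp
  · rintro ⟨h1, h2⟩ i hi
    have hi' : i < σ.length + 1 := by simpa using hi
    rcases Nat.lt_succ_iff_lt_or_eq.1 hi' with h | h
    · rw [List.getElem_append_left h]
      exact h1 i h
    · subst h
      rw [h2]
      simp

theorem htL_snoc (σ : List Sym) (s : Sym) : htL (σ ++ [s]) = nxt (htL σ) s := by
  simp [htL, List.foldl_append]

theorem ht_len : ∀ (σ : List Sym) (x : Pt), x ∈ cyl σ → ht x σ.length = htL σ := by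
  intro σ
  induction σ using List.reverseRecOn with
  | nil => intro x _; rfl
  | append_singleton l a ih =>
    intro x hx
    rw [mem_cyl_snoc] at hx
    rw [htL_snoc, List.length_append, List.length_singleton]
    change nxt (ht x l.length) (x l.length) = _
    rw [ih x hx.1, hx.2]

theorem le_ht (x : Pt) : ∀ i, i ≤ ht x i := by
  intro i
  induction i with
  | zero => exact Nat.zero_le _
  | succ i ih =>
    change i + 1 ≤ nxt (ht x i) (x i)
    exact (Nat.add_le_add_right ih 1).trans (nxt_gt _ _)

theorem ht_succ_le (x : Pt) (i : ℕ) : ht x i + 1 ≤ ht x (i + 1) := nxt_gt _ _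

theorem ht_mono (x : Pt) : Monotone (ht x) :=
  monotone_nat_of_le_succ fun i => (Nat.le_succ _).trans (ht_succ_le x i)

theorem cf1_ne (M : ℕ) (s : Sym) (n : ℕ) (h : cf1 M s n ≠ 0) : M ≤ n ∧ n < nxt M s := by
  cases s with
  | l2 b k =>
    simp only [cf1] at h
    split_ifs at h with h1
    · have hb : b n ≠ 0 := by
        intro h0
        apply h
        rw [h0]
        simp
      have hs : n ∈ b.support := Finsupp.mem_support_iff.2 hb
      refine ⟨h1.1 n hs, ?_⟩
      have h2 : n + 1 ≤ b.support.sup (fun n => n + 1) :=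
        Finset.le_sup (f := fun n => n + 1) hs
      have h3 : b.support.sup (fun n => n + 1) ≤ nxt M (Sym.l2 b k) :=
        (le_max_right _ _).trans (le_max_right _ _)
      omega
    · exact absurd rfl h
  | c0 n' k => simp [cf1] at h
  | mark k => simp [cf1] at h

theorem cf2_ne (M : ℕ) (s : Sym) (n : ℕ) (h : cf2 M s n ≠ 0) : M ≤ n ∧ n < nxt M s := by
  cases s with
  | l2 b k => simp [cf2] at h
  | c0 n' k =>
    simp only [cf2] at h
    split_ifs at h with h1
    · refine ⟨h1.2, ?_⟩
      have h3 : n' + 1 ≤ nxt M (Sym.c0 n' k) := (le_max_right _ _).trans (le_max_right _ _)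
      omega
    · exact absurd rfl h
  | mark k => simp [cf2] at h

theorem ht_stmt : HtStmt :=
  ⟨ht_len, le_ht, fun x _ _ hij => ht_mono x hij, htL_snoc, mem_cyl_snoc, cf1_ne, cf2_ne⟩

end Pool.Agent.Helper83_DPB.H85
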