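import Pool.Agent.Helper83_DPB.Stmts

/-!
Squad DPB (MP_e2cf1f_an): module UB, the size of the coordinate functions of the first kind.
-/

open Filter Topology Set

namespace Pool.Agent.Helper83_DPB.H85

theorem norm_ratC (q : ℚ) : ‖((q : ℚ) : ℂ)‖ = ((|q| : ℚ) : ℝ) := by
  rw [show ((q : ℚ) : ℂ) = (((q : ℚ) : ℝ) : ℂ) by push_cast; rfl, Complex.norm_real,
    Real.norm_eq_abs]
  push_cast
  rfl

theorem cf1_small (M : ℕ) (s : Sym) (n : ℕ) : ‖cf1 M s n‖ ≤ 1 / ((M : ℝ) + 1) := by
  have hM : (0 : ℝ) < (M : ℝ) + 1 := by positivity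
  cases s with
  | l2 b k =>
    simp only [cf1]
    split_ifs with h
    · have h1 := h.2.2 n
      rw [norm_ratC, le_div_iff₀ hM]
      have : ((|b n| * ((M : ℚ) + 1) : ℚ) : ℝ) ≤ ((1 : ℚ) : ℝ) := by exact_mod_cast h1
      push_cast at this ⊢
      exact this
    · simp only [norm_zero]
      positivity
  | c0 n' k =>
    simp only [cf1, norm_zero]
    positivity
  | mark k =>
    simp only [cf1, norm_zero]
    positivity

theorem cf1_sq (M : ℕ) (s : Sym) (F : Finset ℕ) : ∑ n ∈ F, ‖cf1 M s n‖ ^ 2 ≤ 1 := by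
  cases s with
  | l2 b k =>
    simp only [cf1]
    split_ifs with h
    · have h1 := h.2.1
      have h2 : ∑ n ∈ F, ‖((b n : ℚ) : ℂ)‖ ^ 2 ≤ ∑ n ∈ b.support, ‖((b n : ℚ) : ℂ)‖ ^ 2 := by
        have h3 : ∑ n ∈ F ∪ b.support, ‖((b n : ℚ) : ℂ)‖ ^ 2
            = ∑ n ∈ b.support, ‖((b n : ℚ) : ℂ)‖ ^ 2 := by
          symm
          refine Finset.sum_subset Finset.subset_union_right ?_
          intro n _ hn
          rw [Finsupp.notMem_support_iff.1 hn]
          simp
        rw [← h3]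
        exact Finset.sum_le_sum_of_subset_of_nonneg Finset.subset_union_left
          (fun n _ _ => by positivity)
      refine h2.trans ?_
      have h4 : ∑ n ∈ b.support, ‖((b n : ℚ) : ℂ)‖ ^ 2
          = ((∑ n ∈ b.support, (b n) ^ 2 : ℚ) : ℝ) := by
        push_cast
        refine Finset.sum_congr rfl fun n _ => ?_
        rw [norm_ratC]
        push_cast
        exact sq_abs _
      rw [h4]
      exact_mod_cast h1
    · simp
  | c0 n' k => simp [cf1]
  | mark k => simp [cf1]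

/-- only one term of the sum does not vanish -/
theorem sum_single (HT : HtStmt) (c : ℕ → Sym → ℕ → ℂ)
    (hc : ∀ M s n, c M s n ≠ 0 → M ≤ n ∧ n < nxt M s) (n : ℕ) (x : Pt) :
    (∑ i ∈ Finset.range (n + 1), c (ht x i) (x i) n = 0) ∨
      ∃ i, ∑ i ∈ Finset.range (n + 1), c (ht x i) (x i) n = c (ht x i) (x i) n := by
  by_cases h : ∃ i ∈ Finset.range (n + 1), c (ht x i) (x i) n ≠ 0
  · obtain ⟨i, hi, hne⟩ := h
    right
    refine ⟨i, Finset.sum_eq_single_of_mem i hi ?_⟩
    intro j _ hj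
    by_contra hj0
    obtain ⟨h1, h2⟩ := hc _ _ _ hne
    obtain ⟨h3, h4⟩ := hc _ _ _ hj0
    rcases lt_or_gt_of_ne hj with h5 | h5
    · have h6 : ht x (j + 1) ≤ ht x i := HT.2.2.1 x _ _ h5
      have h7 : nxt (ht x j) (x j) = ht x (j + 1) := rfl
      omega
    · have h6 : ht x (i + 1) ≤ ht x j := HT.2.2.1 x _ _ h5
      have h7 : nxt (ht x i) (x i) = ht x (i + 1) := rfl
      omega
  · left
    push Not at h
    exact Finset.sum_eq_zero h

theorem ub (HT : HtStmt) : UbStmt := by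
  refine ⟨fun n x => ?_, fun n x => ?_, fun x F k => ?_⟩
  · rcases sum_single HT cf1 HT.2.2.2.2.2.1 n x with h | ⟨i, h⟩
    · rw [u1, h]
      simp
    · rw [u1, h]
      exact cf1_le _ _ _
  · rcases sum_single HT cf2 HT.2.2.2.2.2.2 n x with h | ⟨i, h⟩
    · rw [u2, h]
      simp
    · rw [u2, h]
      exact cf2_le _ _ _
  · have hk : (0 : ℝ) < (k : ℝ) + 1 := by positivity
    have h1 : ∀ n ∈ F, ‖u1 n x‖ ≤
        ∑ i ∈ Finset.range k, ‖cf1 (ht x i) (x i) n‖ + 1 / ((k : ℝ) + 1) := by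
      intro n _
      have h0 : (0 : ℝ) ≤ ∑ i ∈ Finset.range k, ‖cf1 (ht x i) (x i) n‖ :=
        Finset.sum_nonneg fun _ _ => norm_nonneg _
      rcases sum_single HT cf1 HT.2.2.2.2.2.1 n x with h | ⟨i, h⟩
      · rw [u1, h, norm_zero]
        positivity
      · rw [u1, h]
        rcases lt_or_ge i k with hi | hi
        · have h2 : ‖cf1 (ht x i) (x i) n‖ ≤ ∑ i ∈ Finset.range k, ‖cf1 (ht x i) (x i) n‖ :=
            Finset.single_le_sum (f := fun i => ‖cf1 (ht x i) (x i) n‖)
              (fun _ _ => norm_nonneg _) (Finset.mem_range.2 hi)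
          have h3 : (0 : ℝ) < 1 / ((k : ℝ) + 1) := by positivity
          linarith
        · have h2 := cf1_small (ht x i) (x i) n
          have h3 : k ≤ ht x i := hi.trans (HT.2.1 x i)
          have h4 : (k : ℝ) ≤ (ht x i : ℝ) := by exact_mod_cast h3
          have h5 : 1 / ((ht x i : ℝ) + 1) ≤ 1 / ((k : ℝ) + 1) :=
            one_div_le_one_div_of_le hk (by linarith)
          linarith
    refine (Finset.sum_le_sum h1).trans ?_
    rw [Finset.sum_add_distrib, Finset.sum_comm]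
    refine add_le_add ?_ ?_
    · have h2 : ∀ i ∈ Finset.range k, ∑ n ∈ F, ‖cf1 (ht x i) (x i) n‖ ≤ Real.sqrt F.card := by
        intro i _
        refine Real.le_sqrt_of_sq_le ?_
        have h3 := sq_sum_le_card_mul_sum_sq (s := F) (f := fun n => ‖cf1 (ht x i) (x i) n‖)
        refine h3.trans ?_
        have h4 := cf1_sq (ht x i) (x i) F
        have h5 : (0 : ℝ) ≤ (F.card : ℝ) := by positivity
        nlinarith
      refine (Finset.sum_le_sum h2).trans ?_
      simp
    · rw [Finset.sum_const, nsmul_eq_mul]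
      rw [mul_one_div]

end Pool.Agent.Helper83_DPB.H85
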